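import Pool.Agent.K7.H47.FI.Move

/-!
# Project FI: job T (row hubs)
-/

set_option autoImplicit false

namespace Pool.Agent.K7.H47.FI

open Pool.Agent.K7.H15.Irr Pool.Agent.K7.H12.FI

section

variable {X : Type} {P : Par X}

theorem bk_of_lab (y : Vt P) (i j : ℕ) (hy : lab y = .bulk i j) :
    ∃ (g : Cls P) (i' : Fin (P.r g.1)) (j' : Fin P.m), y = bk g i' j' ∧ (i' : ℕ) = i ∧ (j' : ℕ) = j := by
  rcases y with ⟨g, ⟨i', j'⟩ | ⟨c, l⟩ | j'⟩
  · simp only [lab, Lab.bulk.injEq] at hy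
    exact ⟨g, i', j', rfl, hy.1, hy.2⟩
  · simp [lab] at hy
  · simp [lab] at hy

/-- the bulk vertices missed by the row hubs `(c, l)` -/
def MM (P : Par X) (c l : ℕ) : Set (Vt P) := {y | ∃ i j, lab y = .bulk i j ∧ P.blk j = c ∧ l ≤ i}

theorem diff_tt (F : OrientedGraph X) (h : IsHom F F P.ρ) (g : Cls P) (c c' : Fin P.b)
    (l l' : Fin (P.R g.1)) (y : Vt P) :
    (y ∈ nb (gph F P h) (tt g c l) ∧ y ∉ nb (gph F P h) (tt g c' l')) ↔
      ((img F P.ρ h).underlying.Adj g.1 (cl y) ∧ y ∈ MM P c' l' ∧ y ∉ MM P c l) := by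
  have e1 : ∀ (c : Fin P.b) (l : Fin (P.R g.1)), y ∈ nb (gph F P h) (tt g c l) ↔
      ((img F P.ρ h).underlying.Adj g.1 (cl y) ∧ ¬ Mis P (.t c l) (lab y)) := fun c l =>
    adj_iff F P h (tt g c l) y
  rw [e1, e1]
  unfold MM
  simp only [Set.mem_ofPred_eq]
  cases hl : lab y with
  | bulk i j =>
    simp only [Mis, Lab.bulk.injEq]
    constructor
    · rintro ⟨⟨h1, h2⟩, h3⟩
      have h4 : P.blk j = c' ∧ (l' : ℕ) ≤ i := by
        by_contra h5
        exact h3 ⟨h1, h5⟩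
      refine ⟨h1, ⟨i, j, ⟨rfl, rfl⟩, h4⟩, ?_⟩
      rintro ⟨i1, j1, ⟨rfl, rfl⟩, h5⟩
      exact h2 h5
    · rintro ⟨h1, ⟨i1, j1, ⟨rfl, rfl⟩, h4⟩, h5⟩
      refine ⟨⟨h1, fun h6 => h5 ⟨_, _, ⟨rfl, rfl⟩, h6⟩⟩, fun h6 => h6.2 h4⟩
  | t c1 l1 => simp [Mis]
  | w j => simp [Mis]

theorem ncard_fin_le (r l : ℕ) : {i : Fin r | l ≤ (i : ℕ)}.ncard = r - l := by
  rw [← Set.ncard_image_of_injective _ Fin.val_injective]
  have : (Fin.val '' {i : Fin r | l ≤ (i : ℕ)}) = ((Finset.Ico l r : Finset ℕ) : Set ℕ) := by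
    ext x
    simp only [Set.mem_image, Set.mem_ofPred_eq, Finset.coe_Ico, Set.mem_Ico]
    constructor
    · rintro ⟨i, hi, rfl⟩
      exact ⟨hi, i.2⟩
    · rintro ⟨h1, h2⟩
      exact ⟨⟨x, h2⟩, h1, rfl⟩
  rw [this, Set.ncard_coe_finset, Nat.card_Ico]

theorem ncard_MM (q : Cls P) (c l K : ℕ) (hK : {j : ℕ | j < P.m ∧ P.blk j = c}.ncard = K) :
    {y : Vt P | cl y = q.1 ∧ y ∈ MM P c l}.ncard = (P.r q.1 - l) * K := by
  have e1 : {y : Vt P | cl y = q.1 ∧ y ∈ MM P c l} =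
      (fun s : Fin (P.r q.1) × Fin P.m => bk q s.1 s.2) ''
        ({i : Fin (P.r q.1) | l ≤ (i : ℕ)} ×ˢ {j : Fin P.m | P.blk j = c}) := by
    ext y
    simp only [Set.mem_ofPred_eq, Set.mem_image, Set.mem_prod]
    constructor
    · rintro ⟨h1, i, j, h2, h3, h4⟩
      obtain ⟨g, i', j', rfl, rfl, rfl⟩ := bk_of_lab y i j h2
      have h5 : g = q := Subtype.ext h1
      subst h5
      exact ⟨(i', j'), ⟨h4, h3⟩, rfl⟩
    · rintro ⟨⟨i, j⟩, ⟨h1, h2⟩, rfl⟩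
      exact ⟨rfl, i, j, rfl, h2, h1⟩
  rw [e1, Set.ncard_image_of_injective, Set.ncard_prod, ncard_fin_le]
  · congr 1
    rw [← hK, ← Set.ncard_image_of_injective _ Fin.val_injective]
    congr 1
    ext x
    simp only [Set.mem_image, Set.mem_ofPred_eq]
    constructor
    · rintro ⟨i, hi, rfl⟩
      exact ⟨i.2, hi⟩
    · rintro ⟨h1, h2⟩
      exact ⟨⟨x, h1⟩, h2, rfl⟩
  · rintro ⟨i, j⟩ ⟨i', j'⟩ hij
    simp only [bk, Sigma.mk.injEq, heq_eq_eq, true_and, Sum.inl.injEq] at hij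
    exact hij

theorem arith_T (r b B c c' l l' : ℕ) (hc' : c' < b) (hB : r * b < B)
    (hlt : l < l' ∨ (l = l' ∧ c' < c)) :
    (r - l') * (B + c') ≤ (r - l) * (B + c) ∧ (l' < r → (r - l') * (B + c') < (r - l) * (B + c)) := by
  have key : l' < r → (r - l') * (B + c') < (r - l) * (B + c) := by
    intro hr
    rcases hlt with h | ⟨rfl, h⟩
    · obtain ⟨d, hd⟩ : ∃ d, r - l = (r - l') + 1 + d := ⟨r - l - (r - l') - 1, by omega⟩
      have h1 : (r - l') * c' ≤ r * b := Nat.mul_le_mul (Nat.sub_le _ _) hc'.le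
      rw [hd]
      nlinarith [Nat.zero_le ((r - l') * c), Nat.zero_le (d * (B + c))]
    · exact Nat.mul_lt_mul_of_pos_left (by omega) (by omega)
  refine ⟨?_, key⟩
  rcases lt_or_ge l' r with h | h
  · exact (key h).le
  · rw [Nat.sub_eq_zero_of_le h, zero_mul]; exact Nat.zero_le _

end

theorem stT (hD : StDiff) (hCh : StChain) (hS : StSplit) (hLB : StLB1) (hSz : StSize) : StT := by
  intro X _ F hw hk
  obtain ⟨c, hc, A1, hA1⟩ := hLB X F hw hk
  obtain ⟨C, hC, A2, hA2⟩ := hSz X F hw hk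
  set k : ℝ := (Nat.card X : ℝ) with hkdef
  have hk0 : (0 : ℝ) < k := by
    have : 0 < Nat.card X := by omega
    rw [hkdef]; exact_mod_cast this
  refine ⟨A1 + A2 + xb X + 1 + ⌈C * C * k / c⌉₊ + ⌈2 * C / c⌉₊, ?_⟩
  intro P h a B x hok g c1 c2 l1 l2 hlt
  have ok1 := hA1 P h a B x (Ok.mono hok (by omega))
  obtain ⟨z1, z2, z3, -, -, z6, z7, z8, -, -, -, z12⟩ := hA2 P h a B x (Ok.mono hok (by omega))
  set A : ℕ := A1 + A2 + xb X + 1 + ⌈C * C * k / c⌉₊ + ⌈2 * C / c⌉₊ with hAdef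
  have hAx : xb X + 1 ≤ A := by omega
  have hAr1 : C * C * k < A * c := by
    have h1 : C * C * k / c ≤ (⌈C * C * k / c⌉₊ : ℝ) := Nat.le_ceil _
    have h2 : ((⌈C * C * k / c⌉₊ : ℕ) : ℝ) + 1 ≤ (A : ℝ) := by
      have : ⌈C * C * k / c⌉₊ + 1 ≤ A := by omega
      exact_mod_cast this
    have h3 : C * C * k / c < A := by linarith
    rwa [div_lt_iff₀ hc] at h3
  have hAr2 : 2 * C ≤ A * c := by
    have h1 : 2 * C / c ≤ (⌈2 * C / c⌉₊ : ℝ) := Nat.le_ceil _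
    have h2 : ((⌈2 * C / c⌉₊ : ℕ) : ℝ) ≤ (A : ℝ) := by
      have : ⌈2 * C / c⌉₊ ≤ A := by omega
      exact_mod_cast this
    have h3 : 2 * C / c ≤ A := by linarith
    rwa [div_le_iff₀ hc] at h3
  have ha1 : 1 ≤ a := le_trans (by omega) hok.ha
  have hbA : A ≤ P.b := by
    refine le_trans ?_ hok.hb
    exact Nat.le_mul_of_pos_right _ (by positivity)
  set n : ℝ := (Nat.card (Vt P) : ℝ) with hn
  have hn0 : 0 < n := by rw [hn]; exact_mod_cast z2
  -- lower bound for n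
  have hnb : (a : ℝ) * (P.b * B) ≤ n := by
    refine le_trans ?_ z6
    have : a * (P.b * B) ≤ a * P.m := Nat.mul_le_mul_left _ z3
    exact_mod_cast this
  have hbA' : (A : ℝ) ≤ P.b := by exact_mod_cast hbA
  have ha1' : (1 : ℝ) ≤ a := by exact_mod_cast ha1
  have hB0 : (0 : ℝ) ≤ B := Nat.cast_nonneg _
  have hbb : (A : ℝ) * a ^ 2 ≤ P.b := by exact_mod_cast hok.hb
  have hBpos : 0 < B := by
    refine lt_of_lt_of_le ?_ hok.hB
    have : 0 < P.b := by omega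
    have : 0 < A := by omega
    positivity
  have hBpos' : (0 : ℝ) < B := by exact_mod_cast hBpos
  have hrb : ∀ q : Cls P, P.r q.1 * P.b < B := by
    intro q
    refine lt_of_lt_of_le ?_ hok.hB
    rw [hok.hr]
    have h1 : x q.1 < A := lt_of_le_of_lt (hok.hx q).2 (by omega)
    have h2 : 0 < a * P.b := Nat.mul_pos ha1 (by omega)
    calc x q.1 * a * P.b = x q.1 * (a * P.b) := by ring
      _ < A * (a * P.b) := Nat.mul_lt_mul_of_pos_right h1 h2
      _ = A * a * P.b := by ring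
  set G := gph F P h with hG
  set H := img F P.ρ h with hH
  set v : Vt P := tt g c1 l1 with hv
  set v' : Vt P := tt g c2 l2 with hv'
  have hne : v ≠ v' := by
    intro he
    simp only [hv, hv', tt, Sigma.mk.injEq, heq_eq_eq, true_and, Sum.inr.injEq, Sum.inl.injEq,
      Prod.mk.injEq] at he
    rcases hlt with h1 | ⟨-, h1⟩
    · exact absurd (he.2 ▸ h1) (lt_irrefl _)
    · exact absurd (he.1 ▸ h1) (lt_irrefl _)
  have hlt' : (l1 : ℕ) < l2 ∨ ((l1 : ℕ) = l2 ∧ (c2 : ℕ) < c1) := by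
    rcases hlt with h1 | ⟨h1, h2⟩
    · exact Or.inl h1
    · exact Or.inr ⟨by rw [h1], h2⟩
  have hd1 : ∀ y, (y ∈ nb G v ∧ y ∉ nb G v') ↔
      (H.underlying.Adj g.1 (cl y) ∧ y ∈ MM P c2 l2 ∧ y ∉ MM P c1 l1) := fun y =>
    diff_tt F h g c1 c2 l1 l2 y
  have hd2 : ∀ y, (y ∈ nb G v' ∧ y ∉ nb G v) ↔
      (H.underlying.Adj g.1 (cl y) ∧ y ∈ MM P c1 l1 ∧ y ∉ MM P c2 l2) := fun y =>
    diff_tt F h g c2 c1 l2 l1 y
  -- the sizes
  have hsz : ∀ q : X,
      {y | y ∈ nb G v \ nb G v' ∧ cl y = q}.ncard ≤ {y | y ∈ nb G v' \ nb G v ∧ cl y = q}.ncard ∧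
      ((∃ hq : q ∈ Set.range P.ρ, H.underlying.Adj g.1 q ∧ (l2 : ℕ) < P.r q) →
        {y | y ∈ nb G v \ nb G v' ∧ cl y = q}.ncard <
          {y | y ∈ nb G v' \ nb G v ∧ cl y = q}.ncard) := by
    intro q
    by_cases hq : H.underlying.Adj g.1 q
    · have hqr : q ∈ Set.range P.ρ := by
        rcases hq with ⟨x1, y1, -, -, h3⟩ | ⟨x1, y1, -, h3, -⟩
        · exact ⟨y1, h3⟩
        · exact ⟨x1, h3⟩
      have e1 : {y | y ∈ nb G v \ nb G v' ∧ cl y = q} =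
          {y : Vt P | cl y = q ∧ y ∈ MM P c2 l2} \ {y : Vt P | cl y = q ∧ y ∈ MM P c1 l1} := by
        ext y
        simp only [Set.mem_ofPred_eq, Set.mem_sdiff, hd1]
        constructor
        · rintro ⟨⟨-, h2, h3⟩, h4⟩
          exact ⟨⟨h4, h2⟩, fun h5 => h3 h5.2⟩
        · rintro ⟨⟨h1, h2⟩, h3⟩
          exact ⟨⟨h1 ▸ hq, h2, fun h4 => h3 ⟨h1, h4⟩⟩, h1⟩
      have e2 : {y | y ∈ nb G v' \ nb G v ∧ cl y = q} =
          {y : Vt P | cl y = q ∧ y ∈ MM P c1 l1} \ {y : Vt P | cl y = q ∧ y ∈ MM P c2 l2} := by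
        ext y
        simp only [Set.mem_ofPred_eq, Set.mem_sdiff, hd2]
        constructor
        · rintro ⟨⟨-, h2, h3⟩, h4⟩
          exact ⟨⟨h4, h2⟩, fun h5 => h3 h5.2⟩
        · rintro ⟨⟨h1, h2⟩, h3⟩
          exact ⟨⟨h1 ▸ hq, h2, fun h4 => h3 ⟨h1, h4⟩⟩, h1⟩
      rw [e1, e2]
      have n1 := ncard_MM (P := P) ⟨q, hqr⟩ c1 l1 _ (hok.blk_card c1 c1.2)
      have n2 := ncard_MM (P := P) ⟨q, hqr⟩ c2 l2 _ (hok.blk_card c2 c2.2)
      have ar := arith_T (P.r q) P.b B c1 c2 l1 l2 c2.2 (hrb ⟨q, hqr⟩) hlt'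
      refine ⟨?_, ?_⟩
      · rw [← Set.ncard_le_ncard_iff_ncard_sdiff_le_ncard_sdiff (Set.toFinite _) (Set.toFinite _)]
        rw [n1, n2]
        exact ar.1
      · rintro ⟨-, -, h3⟩
        rw [← Set.ncard_lt_ncard_iff_ncard_sdiff_lt_ncard_sdiff (Set.toFinite _) (Set.toFinite _)]
        rw [n1, n2]
        exact ar.2 h3
    · have e1 : {y | y ∈ nb G v \ nb G v' ∧ cl y = q} = ∅ := by
        ext y
        simp only [Set.mem_ofPred_eq, Set.mem_sdiff, hd1, Set.mem_empty_iff_false, iff_false]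
        rintro ⟨⟨h1, -⟩, rfl⟩
        exact hq h1
      rw [e1]
      refine ⟨by simp, ?_⟩
      rintro ⟨-, h3, -⟩
      exact absurd h3 hq
  obtain ⟨g', hg', hg'2⟩ := hok.Rex g
  obtain ⟨f, u, f1, f2, f3, f4⟩ := glue (cl (P := P)) (nb G v \ nb G v') (nb G v' \ nb G v)
    (fun q => (hsz q).1) ⟨g'.1, (hsz g'.1).2 ⟨g'.2, hg', by rw [hg'2]; exact l2.2⟩⟩
  -- missing bulk vertices
  have hmiss : ∀ w : Vt P, ({y | H.underlying.Adj (cl w) (cl y) ∧ (∃ g i j, y = bk g i j) ∧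
      y ∉ nb G w}.ncard : ℝ) ≤ C * (a * B) := z12
  have herr : 0 < err X (Vt P) 2 := by
    unfold err
    have : 0 < k / n := div_pos hk0 hn0
    positivity
  have herr3 : err X (Vt P) 3 = err X (Vt P) 2 * (k / n) := by
    unfold err
    rw [pow_succ]
  refine move_lt hD hCh hS F H cl G (over_gph F P h) v v' hne rfl f u (c * err X (Vt P) 2) (C * a)
    (fun y hy1 hy2 => ?_) f2 f3.1 f3.2 (fun y hy1 hy2 => f4 y ⟨hy1, hy2⟩) ?_ ?_ ?_
  · have := f1 y ⟨hy1, hy2⟩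
    exact ⟨this.1.1, this.1.2, this.2⟩
  · apply ok1 v v' u _ hne rfl
    · exact ((hd2 u).1 f3).1
    · exact Set.mem_insert _ _
    · -- the missing bulk vertices
      have hsub : {y : Vt P | (∃ g i j, y = bk g i j) ∧ H.underlying.Adj (cl v) (cl y) ∧
          y ∉ insert u (nb G v ∩ nb G v' ∪ f '' (nb G v \ nb G v'))} ⊆
          {y | H.underlying.Adj (cl v) (cl y) ∧ (∃ g i j, y = bk g i j) ∧ y ∉ nb G v} ∪
          {y | H.underlying.Adj (cl v') (cl y) ∧ (∃ g i j, y = bk g i j) ∧ y ∉ nb G v'} := by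
        rintro y ⟨h1, h2, h3⟩
        by_cases h4 : y ∈ nb G v
        · right
          refine ⟨h2, h1, fun h5 => h3 ?_⟩
          exact Set.mem_insert_of_mem _ (Or.inl ⟨h4, h5⟩)
        · left
          exact ⟨h2, h1, h4⟩
      have h1 : ({y : Vt P | (∃ g i j, y = bk g i j) ∧ H.underlying.Adj (cl v) (cl y) ∧
          y ∉ insert u (nb G v ∩ nb G v' ∪ f '' (nb G v \ nb G v'))}.ncard : ℝ) ≤
          C * (a * B) + C * (a * B) := by
        have h2 := (Set.ncard_le_ncard hsub (Set.toFinite _)).trans (Set.ncard_union_le _ _)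
        have h3 := hmiss v
        have h4 := hmiss v'
        have h5 : ({y : Vt P | (∃ g i j, y = bk g i j) ∧ H.underlying.Adj (cl v) (cl y) ∧
          y ∉ insert u (nb G v ∩ nb G v' ∪ f '' (nb G v \ nb G v'))}.ncard : ℝ) ≤
          ({y | H.underlying.Adj (cl v) (cl y) ∧ (∃ g i j, y = bk g i j) ∧ y ∉ nb G v}.ncard : ℝ) +
          ({y | H.underlying.Adj (cl v') (cl y) ∧ (∃ g i j, y = bk g i j) ∧ y ∉ nb G v'}.ncard : ℝ) := by
          exact_mod_cast h2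
        linarith
      refine h1.trans ?_
      have h2 : C * (a * B) + C * (a * B) = (2 * C) * (a * B) := by ring
      rw [h2]
      have h3 : (2 * C) * (a * B) ≤ (A * c) * ((a : ℝ) * B) :=
        mul_le_mul_of_nonneg_right hAr2 (by positivity)
      have h4 : (A * c) * ((a : ℝ) * B) ≤ (P.b * c) * ((a : ℝ) * B) := by gcongr
      have h5 : (P.b * c) * ((a : ℝ) * B) = c * (a * (P.b * B)) := by ring
      have h6 : c * (a * (P.b * B)) ≤ c * n := mul_le_mul_of_nonneg_left hnb hc.le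
      linarith
  · intro y hy1 hy2
    have g1 := (hd1 y).1 ⟨hy1, hy2⟩
    have g2 := f1 y ⟨hy1, hy2⟩
    have g3 := (hd2 (f y)).1 ⟨g2.1.1, g2.1.2⟩
    obtain ⟨-, ⟨i, j, g4, -⟩, -⟩ := g1
    obtain ⟨-, ⟨i', j', g5, -⟩, -⟩ := g3
    obtain ⟨q, i1, j1, hy, -, -⟩ := bk_of_lab y i j g4
    obtain ⟨q', i2, j2, hfy, -, -⟩ := bk_of_lab (f y) i' j' g5
    have g6 : q' = q := by
      have := g2.2
      rw [hy, ← hy, hfy] at this
      rw [hy] at this
      exact Subtype.ext this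
    subst g6
    rw [hfy, hy]
    exact z8 q' i1 i2 j1 j2
  · have hcard : ((nb G v \ nb G v').ncard : ℝ) ≤ C * (a * B) := by
      refine le_trans ?_ (hmiss v')
      have : (nb G v \ nb G v').ncard ≤ {y | H.underlying.Adj (cl v') (cl y) ∧
          (∃ g i j, y = bk g i j) ∧ y ∉ nb G v'}.ncard := by
        apply Set.ncard_le_ncard _ (Set.toFinite _)
        intro y hy
        have g1 := (hd1 y).1 hy
        obtain ⟨g0, ⟨i, j, g4, -⟩, -⟩ := g1
        obtain ⟨q, i1, j1, hy', -, -⟩ := bk_of_lab y i j g4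
        exact ⟨g0, ⟨q, i1, j1, hy'⟩, hy.2⟩
      exact_mod_cast this
    rw [herr3]
    have h1 : ((nb G v \ nb G v').ncard : ℝ) * (C * a) * (err X (Vt P) 2 * (k / n)) ≤
        (C * (a * B)) * (C * a) * (err X (Vt P) 2 * (k / n)) := by
      have : 0 ≤ k / n := (div_pos hk0 hn0).le
      gcongr
    refine lt_of_le_of_lt h1 ?_
    have h2 : (C * (a * B)) * (C * a) * (err X (Vt P) 2 * (k / n)) =
        ((C * C * k) * (a ^ 2 * B) / n) * err X (Vt P) 2 := by ring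
    rw [h2]
    refine mul_lt_mul_of_pos_right ?_ herr
    rw [div_lt_iff₀ hn0]
    have h3 : (C * C * k) * ((a : ℝ) ^ 2 * B) < (A * c) * (a ^ 2 * B) := by
      refine mul_lt_mul_of_pos_right hAr1 (by positivity)
    have h4 : (A * c) * ((a : ℝ) ^ 2 * B) = c * (1 * ((A * a ^ 2) * B)) := by ring
    have h5 : c * (1 * ((A * (a : ℝ) ^ 2) * B)) ≤ c * (a * (P.b * B)) := by gcongr
    have h6 : c * (a * (P.b * B)) ≤ c * n := mul_le_mul_of_nonneg_left hnb hc.le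
    linarith

end Pool.Agent.K7.H47.FI
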