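import Pool.Agent.K7.H47.FI.T

/-!
# Project FI: job W (column hubs)
-/

set_option autoImplicit false

namespace Pool.Agent.K7.H47.FI

open Pool.Agent.K7.H15.Irr Pool.Agent.K7.H12.FI

/-- comparison by a move of bulk vertices to bulk vertices -/
theorem bulk_lt (hD : StDiff) (hCh : StChain) (hS : StSplit) (hLB : StLB1) (hSz : StSize)
    (X : Type) [Finite X] (F : OrientedGraph X) (hw : F.WeaklyConnected) (hk : 3 ≤ Nat.card X) :
    ∃ A0 : ℕ, ∀ (P : Par X) (h : IsHom F F P.ρ) (a B : ℕ) (x : X → ℕ), Ok F P h A0 a B x →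
      ∀ (v v' : Vt P), v ≠ v' → cl v = cl v' → ∀ (f : Vt P → Vt P) (u : Vt P),
      (∀ y, y ∈ nb (gph F P h) v → y ∉ nb (gph F P h) v' →
        (f y ∈ nb (gph F P h) v' ∧ f y ∉ nb (gph F P h) v ∧ cl (f y) = cl y) ∧
          (∃ g i j, y = bk g i j) ∧ (∃ g i j, f y = bk g i j)) →
      Set.InjOn f (nb (gph F P h) v \ nb (gph F P h) v') → u ∈ nb (gph F P h) v' →
      u ∉ nb (gph F P h) v → (∀ y, y ∈ nb (gph F P h) v → y ∉ nb (gph F P h) v' → f y ≠ u) →
      D F (gph F P h) v < D F (gph F P h) v' := by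
  obtain ⟨c, hc, A1, hA1⟩ := hLB X F hw hk
  obtain ⟨C, hC, A2, hA2⟩ := hSz X F hw hk
  set k : ℝ := (Nat.card X : ℝ) with hkdef
  have hk0 : (0 : ℝ) < k := by
    have : 0 < Nat.card X := by omega
    rw [hkdef]; exact_mod_cast this
  refine ⟨A1 + A2 + xb X + 1 + ⌈C * C * k / c⌉₊ + ⌈2 * C / c⌉₊, ?_⟩
  intro P h a B x hok v v' hne hcl f u f1 f2 f3 f3' f4
  have ok1 := hA1 P h a B x (Ok.mono hok (by omega))
  obtain ⟨z1, z2, z3, -, -, z6, z7, z8, -, -, -, z12⟩ := hA2 P h a B x (Ok.mono hok (by omega))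
  set A : ℕ := A1 + A2 + xb X + 1 + ⌈C * C * k / c⌉₊ + ⌈2 * C / c⌉₊ with hAdef
  have hAr1 : C * C * k < A * c := by
    have h1 : C * C * k / c ≤ (⌈C * C * k / c⌉₊ : ℝ) := Nat.le_ceil _
    have h2 : ((⌈C * C * k / c⌉₊ : ℕ) : ℝ) + 1 ≤ (A : ℝ) := by
      have : ⌈C * C * k / c⌉₊ + 1 ≤ A := by omega
      exact_mod_cast this
    have h3 : C * C * k / c < A := by linarith
    rwa [div_lt_iff₀ hc] at h3
  have hAr2 : 2 * C ≤ A * c := by
    have h1 : 2 * C / c ≤ (⌈2 * C / c⌉₊ : ℝ) := Nat.le_ceil _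
    have h2 : ((⌈2 * C / c⌉₊ : ℕ) : ℝ) ≤ (A : ℝ) := by
      have : ⌈2 * C / c⌉₊ ≤ A := by omega
      exact_mod_cast this
    have h3 : 2 * C / c ≤ A := by linarith
    rwa [div_le_iff₀ hc] at h3
  have ha1 : 1 ≤ a := le_trans (by omega) hok.ha
  have hbA : A ≤ P.b := by
    refine le_trans ?_ hok.hb
    exact Nat.le_mul_of_pos_right _ (by positivity)
  set n : ℝ := (Nat.card (Vt P) : ℝ) with hn
  have hn0 : 0 < n := by rw [hn]; exact_mod_cast z2
  have hnb : (a : ℝ) * (P.b * B) ≤ n := by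
    refine le_trans ?_ z6
    have : a * (P.b * B) ≤ a * P.m := Nat.mul_le_mul_left _ z3
    exact_mod_cast this
  have hbA' : (A : ℝ) ≤ P.b := by exact_mod_cast hbA
  have ha1' : (1 : ℝ) ≤ a := by exact_mod_cast ha1
  have hB0 : (0 : ℝ) ≤ B := Nat.cast_nonneg _
  have hbb : (A : ℝ) * a ^ 2 ≤ P.b := by exact_mod_cast hok.hb
  have hBpos : 0 < B := by
    refine lt_of_lt_of_le ?_ hok.hB
    have : 0 < P.b := by omega
    have : 0 < A := by omega
    positivity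
  have hBpos' : (0 : ℝ) < B := by exact_mod_cast hBpos
  set G := gph F P h with hG
  set H := img F P.ρ h with hH
  have hadj : ∀ w y, y ∈ nb G w → H.underlying.Adj (cl w) (cl y) := fun w y hy =>
    ((adj_iff F P h w y).1 hy).1
  have hmiss : ∀ w : Vt P, ({y | H.underlying.Adj (cl w) (cl y) ∧ (∃ g i j, y = bk g i j) ∧
      y ∉ nb G w}.ncard : ℝ) ≤ C * (a * B) := z12
  have herr : 0 < err X (Vt P) 2 := by
    unfold err
    have : 0 < k / n := div_pos hk0 hn0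
    positivity
  have herr3 : err X (Vt P) 3 = err X (Vt P) 2 * (k / n) := by
    unfold err
    rw [pow_succ]
  refine move_lt hD hCh hS F H cl G (over_gph F P h) v v' hne hcl f u (c * err X (Vt P) 2) (C * a)
    (fun y hy1 hy2 => (f1 y hy1 hy2).1) f2 f3 f3' f4 ?_ ?_ ?_
  · apply ok1 v v' u _ hne hcl
    · rw [hcl]; exact hadj v' u f3
    · exact Set.mem_insert _ _
    · have hsub : {y : Vt P | (∃ g i j, y = bk g i j) ∧ H.underlying.Adj (cl v) (cl y) ∧
          y ∉ insert u (nb G v ∩ nb G v' ∪ f '' (nb G v \ nb G v'))} ⊆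
          {y | H.underlying.Adj (cl v) (cl y) ∧ (∃ g i j, y = bk g i j) ∧ y ∉ nb G v} ∪
          {y | H.underlying.Adj (cl v') (cl y) ∧ (∃ g i j, y = bk g i j) ∧ y ∉ nb G v'} := by
        rintro y ⟨h1, h2, h3⟩
        by_cases h4 : y ∈ nb G v
        · right
          refine ⟨hcl ▸ h2, h1, fun h5 => h3 ?_⟩
          exact Set.mem_insert_of_mem _ (Or.inl ⟨h4, h5⟩)
        · left
          exact ⟨h2, h1, h4⟩
      have h1 : ({y : Vt P | (∃ g i j, y = bk g i j) ∧ H.underlying.Adj (cl v) (cl y) ∧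
          y ∉ insert u (nb G v ∩ nb G v' ∪ f '' (nb G v \ nb G v'))}.ncard : ℝ) ≤
          C * (a * B) + C * (a * B) := by
        have h2 := (Set.ncard_le_ncard hsub (Set.toFinite _)).trans (Set.ncard_union_le _ _)
        have h3 := hmiss v
        have h4 := hmiss v'
        have h5 : ({y : Vt P | (∃ g i j, y = bk g i j) ∧ H.underlying.Adj (cl v) (cl y) ∧
          y ∉ insert u (nb G v ∩ nb G v' ∪ f '' (nb G v \ nb G v'))}.ncard : ℝ) ≤
          ({y | H.underlying.Adj (cl v) (cl y) ∧ (∃ g i j, y = bk g i j) ∧ y ∉ nb G v}.ncard : ℝ) +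
          ({y | H.underlying.Adj (cl v') (cl y) ∧ (∃ g i j, y = bk g i j) ∧ y ∉ nb G v'}.ncard : ℝ) := by
          exact_mod_cast h2
        linarith
      refine h1.trans ?_
      have h2 : C * (a * B) + C * (a * B) = (2 * C) * (a * B) := by ring
      rw [h2]
      have h3 : (2 * C) * (a * B) ≤ (A * c) * ((a : ℝ) * B) :=
        mul_le_mul_of_nonneg_right hAr2 (by positivity)
      have h4 : (A * c) * ((a : ℝ) * B) ≤ (P.b * c) * ((a : ℝ) * B) := by gcongr
      have h5 : (P.b * c) * ((a : ℝ) * B) = c * (a * (P.b * B)) := by ring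
      have h6 : c * (a * (P.b * B)) ≤ c * n := mul_le_mul_of_nonneg_left hnb hc.le
      linarith
  · intro y hy1 hy2
    obtain ⟨⟨g1, g2, g3⟩, ⟨q, i1, j1, hy⟩, ⟨q', i2, j2, hfy⟩⟩ := f1 y hy1 hy2
    have g6 : q' = q := by
      have := g3
      rw [hy, ← hy, hfy] at this
      rw [hy] at this
      exact Subtype.ext this
    subst g6
    rw [hfy, hy]
    exact z8 q' i1 i2 j1 j2
  · have hcard : ((nb G v \ nb G v').ncard : ℝ) ≤ C * (a * B) := by
      refine le_trans ?_ (hmiss v')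
      have : (nb G v \ nb G v').ncard ≤ {y | H.underlying.Adj (cl v') (cl y) ∧
          (∃ g i j, y = bk g i j) ∧ y ∉ nb G v'}.ncard := by
        apply Set.ncard_le_ncard _ (Set.toFinite _)
        intro y hy
        exact ⟨hcl ▸ hadj v y hy.1, (f1 y hy.1 hy.2).2.1, hy.2⟩
      exact_mod_cast this
    rw [herr3]
    have h1 : ((nb G v \ nb G v').ncard : ℝ) * (C * a) * (err X (Vt P) 2 * (k / n)) ≤
        (C * (a * B)) * (C * a) * (err X (Vt P) 2 * (k / n)) := by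
      have : 0 ≤ k / n := (div_pos hk0 hn0).le
      gcongr
    refine lt_of_le_of_lt h1 ?_
    have h2 : (C * (a * B)) * (C * a) * (err X (Vt P) 2 * (k / n)) =
        ((C * C * k) * (a ^ 2 * B) / n) * err X (Vt P) 2 := by ring
    rw [h2]
    refine mul_lt_mul_of_pos_right ?_ herr
    rw [div_lt_iff₀ hn0]
    have h3 : (C * C * k) * ((a : ℝ) ^ 2 * B) < (A * c) * (a ^ 2 * B) := by
      refine mul_lt_mul_of_pos_right hAr1 (by positivity)
    have h4 : (A * c) * ((a : ℝ) ^ 2 * B) = c * (1 * ((A * a ^ 2) * B)) := by ring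
    have h5 : c * (1 * ((A * (a : ℝ) ^ 2) * B)) ≤ c * (a * (P.b * B)) := by gcongr
    have h6 : c * (a * (P.b * B)) ≤ c * n := mul_le_mul_of_nonneg_left hnb hc.le
    linarith

/-- a bulk vertex is moved to the column `j` -/
def mv {X : Type} {P : Par X} (j : Fin P.m) : Vt P → Vt P
  | ⟨q, Sum.inl (i, _)⟩ => ⟨q, Sum.inl (i, j)⟩
  | y => y

theorem stW (hD : StDiff) (hCh : StChain) (hS : StSplit) (hLB : StLB1) (hSz : StSize) : StW := by
  intro X _ F hw hk
  obtain ⟨A0, hA0⟩ := bulk_lt hD hCh hS hLB hSz X F hw hk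
  refine ⟨A0, ?_⟩
  intro P h a B x hok g j j' hjj
  have hjn : (j : ℕ) < j' := hjj
  have hjm : (j' : ℕ) < P.m := j'.2
  have e1 : ∀ (s : Fin P.m) (y : Vt P), y ∈ nb (gph F P h) (ww g s) ↔
      ((img F P.ρ h).underlying.Adj g.1 (cl y) ∧ ¬ Mis P (.w s) (lab y)) := fun s y =>
    adj_iff F P h (ww g s) y
  -- the difference
  have hdiff : ∀ y, y ∈ nb (gph F P h) (ww g j') → y ∉ nb (gph F P h) (ww g j) →
      (img F P.ρ h).underlying.Adj g.1 (cl y) ∧ ∃ (q : Cls P) (i : Fin (P.r q.1)), y = bk q i j := by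
    intro y h1 h2
    rw [e1] at h1 h2
    have h3 : Mis P (.w j) (lab y) := by
      by_contra h4
      exact h2 ⟨h1.1, h4⟩
    refine ⟨h1.1, ?_⟩
    rcases y with ⟨q, ⟨i, jj⟩ | ⟨c, l⟩ | jj⟩
    · simp only [lab, Mis] at h3
      have : jj = j := Fin.ext h3
      subst this
      exact ⟨q, i, rfl⟩
    · exact absurd (by simp [lab, Mis]) h1.2
    · exfalso
      apply h1.2
      simp only [lab, Mis] at h3 ⊢
      omega
  obtain ⟨g', hg', -⟩ := hok.Rex g
  have hu : (P.m - 2 - j : ℕ) < P.m := by omega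
  refine hA0 P h a B x hok (ww g j') (ww g j) ?_ rfl (mv j') (ww g' ⟨P.m - 2 - j, hu⟩) ?_ ?_ ?_ ?_ ?_
  · intro he
    simp only [ww, Sigma.mk.injEq, heq_eq_eq, true_and, Sum.inr.injEq] at he
    exact absurd (he ▸ hjj) (lt_irrefl _)
  · intro y h1 h2
    obtain ⟨h3, q, i, rfl⟩ := hdiff y h1 h2
    have h4 : mv j' (bk q i j) = bk q i j' := rfl
    rw [h4]
    refine ⟨⟨?_, ?_, rfl⟩, ⟨q, i, j, rfl⟩, ⟨q, i, j', rfl⟩⟩
    · rw [e1]
      refine ⟨h3, ?_⟩
      show ¬ ((j' : ℕ) = j)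
      omega
    · rw [e1]
      rintro ⟨-, h5⟩
      exact h5 (show (j' : ℕ) = j' from rfl)
  · intro y hy z hz hyz
    obtain ⟨-, q, i, rfl⟩ := hdiff y hy.1 hy.2
    obtain ⟨-, q', i', rfl⟩ := hdiff z hz.1 hz.2
    have h4 : bk q i j' = bk q' i' j' := hyz
    simp only [bk, Sigma.mk.injEq] at h4
    obtain ⟨rfl, h5⟩ := h4
    simp only [heq_eq_eq, Sum.inl.injEq, Prod.mk.injEq, and_true] at h5
    rw [h5]
  · rw [e1]
    refine ⟨hg', ?_⟩
    show ¬ (P.m < j + (P.m - 2 - j) + 2)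
    omega
  · rw [e1]
    rintro ⟨-, h5⟩
    apply h5
    show P.m < j' + (P.m - 2 - j) + 2
    omega
  · intro y h1 h2 he
    obtain ⟨-, q, i, rfl⟩ := hdiff y h1 h2
    have h4 : bk q i j' = ww g' ⟨P.m - 2 - j, hu⟩ := he
    have h5 := congrArg lab h4
    simp [bk, ww, lab] at h5

end Pool.Agent.K7.H47.FI
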