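import Pool.Agent.K7.H12.FI.Conc

/-!
# Project FI: a common form of the comparisons at level one
-/

set_option autoImplicit false

namespace Pool.Agent.K7.H47.FI

open Pool.Agent.K7.H15.Irr Pool.Agent.K7.H12.FI

/-- `D v < D v'` if the extra neighbours of `v` can be moved injectively to extra neighbours of `v'`,
inside the classes and at a small cost, and a further extra neighbour `u` of `v'` gives a gain. -/
theorem move_lt (hD : StDiff) (hC : StChain) (hS : StSplit) {X V : Type} [Finite X] [Finite V]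
    (F H : OrientedGraph X) (p : V → X) (G : OrientedGraph V) (ho : Over H p G) (v v' : V)
    (hv : v ≠ v') (hp : p v = p v') (f : V → V) (u : V) (gain K : ℝ)
    (h1 : ∀ y, y ∈ nb G v → y ∉ nb G v' → f y ∈ nb G v' ∧ f y ∉ nb G v ∧ p (f y) = p y)
    (h2 : Set.InjOn f (nb G v \ nb G v')) (hu : u ∈ nb G v') (hu' : u ∉ nb G v)
    (hu2 : ∀ y, y ∈ nb G v → y ∉ nb G v' → f y ≠ u)
    (hgain : gain ≤ mu F (upd H p G v (insert u ((nb G v ∩ nb G v') ∪ f '' (nb G v \ nb G v'))))
      (fun φ => E1 v v' φ ∧ Uses F v u φ))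
    (hcost : ∀ y, y ∈ nb G v → y ∉ nb G v' → ((sd G y (f y)).ncard : ℝ) ≤ K)
    (hlt : ((nb G v \ nb G v').ncard : ℝ) * K * err X V 3 < gain) :
    D F G v < D F G v' := by
  classical
  have : Nonempty V := ⟨v⟩
  have hadj : ∀ a b, G.underlying.Adj a b → H.underlying.Adj (p a) (p b) := by
    rintro a b (h | h)
    · exact Or.inl (ho _ _ h)
    · exact Or.inr (ho _ _ h)
  have hvv : ∀ y, y ∈ nb G v ∨ y ∈ nb G v' → y ≠ v ∧ y ≠ v' := by
    intro y hy
    have h3 : H.underlying.Adj (p v) (p y) := by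
      rcases hy with hy | hy
      · exact hadj _ _ hy
      · rw [hp]; exact hadj _ _ hy
    refine ⟨?_, ?_⟩
    · rintro rfl
      exact H.underlying.loopless.irrefl _ h3
    · rintro rfl
      rw [← hp] at h3
      exact H.underlying.loopless.irrefl _ h3
  have hfin : (nb G v \ nb G v').Finite := Set.toFinite _
  set I : Finset V := hfin.toFinset with hI
  have hIc : (I : Set V) = nb G v \ nb G v' := by rw [hI]; exact hfin.coe_toFinset
  have hmem : ∀ y, y ∈ I ↔ y ∈ nb G v ∧ y ∉ nb G v' := by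
    intro y; rw [hI, Set.Finite.mem_toFinset]; rfl
  set U : Set V := nb G v ∩ nb G v' with hU
  have e1 : nb G v = U ∪ (id '' (I : Set V)) := by
    rw [Set.image_id, hIc, hU, Set.inter_union_sdiff]
  have key := hC X V F H p G ho v {v} (E1 v v') (Finset.mem_singleton_self v)
    (by
      rintro φ - hφ a ha
      rw [Finset.mem_singleton] at ha
      rw [ha]; exact hφ.1) V I id f U
    (by
      intro i hi
      rw [hmem] at hi
      obtain ⟨g1, g2, g3⟩ := h1 i hi.1 hi.2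
      have g4 := hvv i (Or.inl hi.1)
      have g5 := hvv (f i) (Or.inr g1)
      refine ⟨fun hc => hi.2 hc.2, fun hc => g2 hc.1, ?_, ?_, g3.symm, ?_, ?_⟩
      · rw [Finset.mem_singleton]; exact g4.1
      · rw [Finset.mem_singleton]; exact g5.1
      · intro a ha hav
        rw [Finset.mem_singleton] at ha
        exact absurd ha hav
      · intro φ hφ τ hτ
        have t1 : τ v = v := hτ v (Ne.symm g4.1) (Ne.symm g5.1)
        have t2 : τ v' = v' := hτ v' (Ne.symm g4.2) (Ne.symm g5.2)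
        refine ⟨?_, ?_⟩
        · obtain ⟨x, hx⟩ := hφ.1
          exact ⟨x, by simp [hx, t1]⟩
        · rintro ⟨x, hx⟩
          apply hφ.2
          refine ⟨x, τ.injective ?_⟩
          rw [t2]; exact hx)
    (Set.injOn_id _) (by rw [hIc]; exact h2)
    (by
      intro i hi j hj he
      rw [hmem] at hi hj
      have := (h1 j hj.1 hj.2).2.1
      rw [← he] at this
      exact this hi.1)
  rw [← e1, Finset.card_singleton] at key
  have hsum : ∑ i ∈ I, ((sd G (id i) (f i)).ncard : ℝ) ≤ ((nb G v \ nb G v').ncard : ℝ) * K := by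
    have : ∑ i ∈ I, ((sd G (id i) (f i)).ncard : ℝ) ≤ ∑ _i ∈ I, K :=
      Finset.sum_le_sum fun i hi => hcost i ((hmem i).1 hi).1 ((hmem i).1 hi).2
    refine this.trans (le_of_eq ?_)
    rw [Finset.sum_const, nsmul_eq_mul, ← hIc, Set.ncard_coe_finset]
  have herr : 0 ≤ err X V 3 := by unfold err; positivity
  obtain ⟨s1, s2, -⟩ := hS X V F H p G v (E1 v v')
  have hunot : u ∉ U ∪ f '' (I : Set V) := by
    rintro (hh | ⟨y, hy, hyu⟩)
    · exact hu' hh.1
    · rw [Finset.mem_coe, hmem] at hy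
      exact hu2 y hy.1 hy.2 hyu
  have s3 := s2 (U ∪ f '' (I : Set V)) u hunot (hvv u (Or.inr hu)).1
  have s4 : mu F (upd H p G v (insert u (U ∪ f '' (I : Set V)))) (E1 v v') ≤
      mu F (upd H p G v (nb G v')) (E1 v v') := by
    apply s1
    intro y hy
    rcases hy with rfl | hy | ⟨z, hz, rfl⟩
    · exact hu
    · exact hy.2
    · rw [Finset.mem_coe, hmem] at hz
      exact (h1 z hz.1 hz.2).1
  rw [hIc] at s3 s4 key
  rw [← hIc] at hgain
  rw [hIc] at hgain
  have hd := hD X V F H p G ho v v' hv hp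
  have h5 : (∑ i ∈ I, ((sd G (id i) (f i)).ncard : ℝ)) * err X V 3 ≤
      ((nb G v \ nb G v').ncard : ℝ) * K * err X V 3 := mul_le_mul_of_nonneg_right hsum herr
  rw [← Finset.sum_mul] at key
  norm_num at key
  simp only [id] at h5
  linarith

/-- gluing of injections -/
theorem glue {V X : Type} [Finite V] (p : V → X) (A A' : Set V)
    (hle : ∀ q, {y | y ∈ A ∧ p y = q}.ncard ≤ {y | y ∈ A' ∧ p y = q}.ncard)
    (hlt : ∃ q, {y | y ∈ A ∧ p y = q}.ncard < {y | y ∈ A' ∧ p y = q}.ncard) :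
    ∃ (f : V → V) (u : V), (∀ y ∈ A, f y ∈ A' ∧ p (f y) = p y) ∧ Set.InjOn f A ∧ u ∈ A' ∧
      ∀ y ∈ A, f y ≠ u := by
  classical
  obtain ⟨q0, hq0⟩ := hlt
  have hne : {y | y ∈ A' ∧ p y = q0}.Nonempty := by
    rw [← Set.ncard_pos (Set.toFinite _)]; omega
  obtain ⟨u0, hu0⟩ := hne
  have : Nonempty V := ⟨u0⟩
  have h1 : ∀ q, ∃ f : V → V, {y | y ∈ A ∧ p y = q} ⊆ f ⁻¹' {y | y ∈ A' ∧ p y = q} ∧
      Set.InjOn f {y | y ∈ A ∧ p y = q} := by
    intro q
    apply Set.Finite.exists_injOn_of_encard_le (Set.toFinite _)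
    rw [← (Set.toFinite {y | y ∈ A ∧ p y = q}).cast_ncard_eq,
      ← (Set.toFinite {y | y ∈ A' ∧ p y = q}).cast_ncard_eq]
    exact_mod_cast hle q
  choose f hf1 hf2 using h1
  have hex : ∃ u ∈ {y | y ∈ A' ∧ p y = q0}, u ∉ f q0 '' {y | y ∈ A ∧ p y = q0} := by
    exact Set.exists_mem_notMem_of_ncard_lt_ncard
      (lt_of_le_of_lt (Set.ncard_image_le (Set.toFinite _)) hq0) (Set.toFinite _)
  obtain ⟨u, hu, hu'⟩ := hex
  refine ⟨fun y => f (p y) y, u, fun y hy => ?_, ?_, hu.1, ?_⟩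
  · exact hf1 (p y) (show y ∈ A ∧ p y = p y from ⟨hy, rfl⟩)
  · intro y hy z hz hyz
    have g1 := hf1 (p y) (show y ∈ A ∧ p y = p y from ⟨hy, rfl⟩)
    have g2 := hf1 (p z) (show z ∈ A ∧ p z = p z from ⟨hz, rfl⟩)
    have g3 : p y = p z := by
      rw [← g1.2, ← g2.2]
      exact congrArg p hyz
    have hyz' : f (p y) y = f (p z) z := hyz
    rw [← g3] at hyz'
    exact hf2 (p y) ⟨hy, rfl⟩ ⟨hz, g3.symm⟩ hyz'
  · intro y hy he
    have g1 := hf1 (p y) (show y ∈ A ∧ p y = p y from ⟨hy, rfl⟩)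
    have he' : f (p y) y = u := he
    have g3 : p y = q0 := by
      rw [← g1.2, ← hu.2]
      exact congrArg p he'
    apply hu'
    rw [g3] at he'
    exact ⟨y, ⟨hy, g3⟩, he'⟩

/-! ### The graph -/

theorem mis_symm {X : Type} (P : Par X) (s t : Lab) : Mis P s t → Mis P t s := by
  cases s <;> cases t <;> simp only [Mis] <;> intro h <;> first | exact h | exact h.symm | omega

theorem adj_iff {X : Type} (F : OrientedGraph X) (P : Par X) (h : IsHom F F P.ρ) (a b : Vt P) :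
    (gph F P h).underlying.Adj a b ↔
      (img F P.ρ h).underlying.Adj (cl a) (cl b) ∧ ¬ Mis P (lab a) (lab b) := by
  constructor
  · rintro (⟨h1, h2⟩ | ⟨h1, h2⟩)
    · exact ⟨Or.inl h1, h2⟩
    · exact ⟨Or.inr h1, fun h3 => h2 (mis_symm P _ _ h3)⟩
  · rintro ⟨h1 | h1, h2⟩
    · exact Or.inl ⟨h1, h2⟩
    · exact Or.inr ⟨h1, fun h3 => h2 (mis_symm P _ _ h3)⟩

theorem over_gph {X : Type} (F : OrientedGraph X) (P : Par X) (h : IsHom F F P.ρ) :
    Over (img F P.ρ h) cl (gph F P h) := fun _ _ h1 => h1.1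

theorem Ok.mono {X : Type} {F : OrientedGraph X} {P : Par X} {h : IsHom F F P.ρ} {A A' a B : ℕ}
    {x : X → ℕ} (hok : Ok F P h A a B x) (hA : A' ≤ A) : Ok F P h A' a B x where
  hx := hok.hx
  hr := hok.hr
  ratio := hok.ratio
  Rup := hok.Rup
  Rex := hok.Rex
  blk_lt := hok.blk_lt
  blk_mono := hok.blk_mono
  blk_card := hok.blk_card
  even := hok.even
  ha := hA.trans hok.ha
  hb := (Nat.mul_le_mul_right _ hA).trans hok.hb
  hB := (Nat.mul_le_mul_right _ (Nat.mul_le_mul_right _ hA)).trans hok.hB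

end Pool.Agent.K7.H47.FI
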